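import Pool.Agent.helper52.FS.SpecE

/-!
# MP_07c750 (quantum unique ergodicity), PROJECT FS, row FRQ: the uniform theorem
-/

open scoped MatrixGroups ContDiff Topology UpperHalfPlane ComplexConjugate
open UpperHalfPlane MeasureTheory Filter Set

set_option autoImplicit false

namespace Pool.Agent.FS

open Pool.Agent.RS
open Pool.Agent.MS (bq BB BA SF pf)
open Pool.Agent.EN (XG MG mkX mkM fl pr)

noncomputable section

/-- the average function -/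
def FRQ_Psi (χ : SL(2, ℝ) → ℝ) (θ : ℝ → ℝ) (n : ℕ) : SL(2, ℝ) → ℝ := fun g => θ ((∑ i ∈ Finset.range n, χ (g * aM i)) / n)

/-- the average is large if few values differ from `1` -/
theorem FRQ_avg (f : ℕ → ℝ) (n : ℕ) (ε : ℝ) (hn : 1 ≤ n) (h0 : ∀ i, 0 ≤ f i)
    (hD : (((Finset.range n).filter fun i => f i ≠ 1).card : ℝ) ≤ ε * n) : 1 - ε ≤ (∑ i ∈ Finset.range n, f i) / n := by
  have hn0 : (0 : ℝ) < (n : ℝ) := by
    have h1 : 0 < n := by omega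
    exact_mod_cast h1
  rw [le_div_iff₀ hn0]
  have h1 : ((Finset.range n).filter fun i => ¬ f i ≠ 1).card + ((Finset.range n).filter fun i => f i ≠ 1).card = n := by
    rw [add_comm, Finset.card_filter_add_card_filter_not, Finset.card_range]
  have h2 : ∑ i ∈ (Finset.range n).filter (fun i => ¬ f i ≠ 1), f i ≤ ∑ i ∈ Finset.range n, f i :=
    Finset.sum_le_sum_of_subset_of_nonneg (Finset.filter_subset _ _) (fun i _ _ => h0 i)
  have h3 : ∑ i ∈ (Finset.range n).filter (fun i => ¬ f i ≠ 1), f i = (((Finset.range n).filter fun i => ¬ f i ≠ 1).card : ℝ) := by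
    rw [Finset.sum_congr rfl (g := fun _ => (1 : ℝ))]
    · rw [Finset.sum_const, nsmul_eq_mul, mul_one]
    · intro i hi
      exact not_not.mp (Finset.mem_filter.mp hi).2
  have h4 : (((Finset.range n).filter fun i => ¬ f i ≠ 1).card : ℝ) + (((Finset.range n).filter fun i => f i ≠ 1).card : ℝ) = (n : ℝ) := by
    exact_mod_cast h1
  nlinarith

theorem FRQ_proof (hCHF : CHF_stmt) (hSTH : STH_stmt) (hAVG : AVG_stmt) (hLFG : LFG_stmt) (hVIS : VIS_stmt) (hXFL : EN.XFL_stmt) : FRQ_stmt := by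
  intro Γ O hΓ hO hOne
  obtain ⟨O1, δ0, hO1, hO1ne, hδ0, hδ01, hV⟩ := hVIS Γ O hO hOne
  obtain ⟨O', c0, C, χ, χa, χn, χl, hO', hO'ne, hc0, hC, hSF, hχ, hχn, hχl, hχ1, hVP⟩ := hCHF Γ O1 hΓ hO1 hO1ne
  obtain ⟨ε, hε, hε4, hL⟩ := hLFG Γ O' c0 hΓ hO' hO'ne hc0
  obtain ⟨θ, θ', Cθ, hCθ, hθd, hθ01, hθ', hθ1, hθ0⟩ := hSTH ε hε (by linarith)
  have hpi := Real.pi_pos
  have hpi4 := Real.pi_le_four
  obtain ⟨C3, hC3⟩ : ∃ C3 : ℝ, C3 = 2 * C * Cθ := ⟨_, rfl⟩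
  have hC31 : 1 ≤ C3 := by rw [hC3]; nlinarith
  refine ⟨ε * δ0 / 20, by positivity, ?_⟩
  intro μ K hμ hK hGP
  haveI := hμ
  -- the estimate for one n
  have key : ∀ e : ℝ, 0 < e → e ≤ 1 → ∃ n0 : ℕ, ∀ n : ℕ, n0 ≤ n → 1 ≤ n → μ.real (IR.one Γ (FRQ_Psi χ θ n)) ≤ (1 + e) / 2 := by
    intro e he he1
    obtain ⟨δ, hδ⟩ : ∃ δ : ℝ, δ = (e / 200) ^ 2 := ⟨_, rfl⟩
    have hδ0' : 0 < δ := by rw [hδ]; positivity
    have hδ1 : δ ≤ 1 := by
      rw [hδ]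
      have h1 : e / 200 ≤ 1 := by linarith
      have h2 : 0 ≤ e / 200 := by positivity
      nlinarith
    obtain ⟨κ0, hκ0⟩ : ∃ κ0 : ℝ, κ0 = Real.pi * δ / (8 * K * C3) := ⟨_, rfl⟩
    have hK0 : 0 < K := by linarith
    have hC30 : 0 < C3 := by linarith
    have hκpos : 0 < κ0 := by rw [hκ0]; positivity
    have hκ1 : κ0 ≤ 1 := by
      rw [hκ0, div_le_one (by positivity)]
      have h1 : Real.pi * δ ≤ 4 * 1 := mul_le_mul hpi4 hδ1 hδ0'.le (by norm_num)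
      have h2 : 1 ≤ K * C3 := by nlinarith
      nlinarith
    obtain ⟨n0, hn0⟩ := hL ε κ0 (δ ^ 2 / 128) hε le_rfl hκpos hκ1 (by positivity)
    refine ⟨n0, fun n hn hn1 => ?_⟩
    obtain ⟨Ψa, Ψn, Ψl, hΨ, hΨn, hΨl⟩ := hAVG Γ C Cθ χ χa χn χl θ θ' n hC hCθ hn1 hSF hχn hχl hθd hθ'
    obtain ⟨εc, hεc⟩ : ∃ εc : ℝ, εc = κ0 * Real.exp (-n) := ⟨_, rfl⟩
    have hεc0 : 0 < εc := by rw [hεc]; exact mul_pos hκpos (Real.exp_pos _)
    have hLFC := hn0 n χ χa χn χl θ εc hn hVP hSF hχ hθ0 hεc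
    have hexp1 : 1 ≤ Real.exp (n : ℝ) := Real.one_le_exp (Nat.cast_nonneg n)
    have hL0 : εc = Real.pi / (4 * (2 * K * (C3 * Real.exp n) / δ)) := by
      rw [hεc, hκ0, Real.exp_neg]
      have h1 : Real.exp (n : ℝ) ≠ 0 := (Real.exp_pos _).ne'
      field_simp
      ring
    have hbn : ∀ g, |Ψn g| ≤ C3 := by
      intro g
      rw [hC3]
      exact hΨn g
    have hbl : ∀ g, |Ψl g| ≤ C3 * Real.exp n := by
      intro g
      rw [hC3]
      exact hΨl g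
    have h01 : ∀ g, 0 ≤ FRQ_Psi χ θ n g ∧ FRQ_Psi χ θ n g ≤ 1 := fun g => hθ01 _
    have hG := hGP e C3 δ (2 * K * (C3 * Real.exp n) / δ) εc (C3 * Real.exp n) (εc / 100) n (FRQ_Psi χ θ n) Ψa Ψn Ψl (FRQ_Psi χ θ n) Ψa Ψn Ψl
      he he1 hC31 hδ0' (by rw [hδ]) rfl hL0 (by positivity) hΨ hΨ h01 h01 hbn hbl
      (fun g => (hbn g).trans (le_mul_of_one_le_right hC30.le hexp1)) hbl hLFC
    linarith
  -- the sets
  obtain ⟨E, hE⟩ : ∃ E : ℕ → Set (XG Γ), E = fun m => {x | ∀ n : ℕ, m ≤ n → x ∈ IR.one Γ (FRQ_Psi χ θ n)} := ⟨_, rfl⟩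
  have hmono : Monotone E := by
    intro m m' hmm x hx
    rw [hE] at hx ⊢
    exact fun n hn => hx n (le_trans hmm hn)
  have hEm : ∀ m, μ (E m) ≤ 1 / 2 := by
    intro m
    refine ENNReal.le_of_forall_pos_le_add ?_
    intro e he _
    obtain ⟨e', he'⟩ : ∃ e' : ℝ, e' = min 1 (e : ℝ) := ⟨_, rfl⟩
    have he'0 : 0 < e' := by
      rw [he']
      exact lt_min one_pos (by exact_mod_cast he)
    obtain ⟨n0, hn0⟩ := key e' he'0 (by rw [he']; exact min_le_left _ _)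
    obtain ⟨n, hn⟩ : ∃ n : ℕ, n = max m (max n0 1) := ⟨_, rfl⟩
    have h1 : E m ⊆ IR.one Γ (FRQ_Psi χ θ n) := by
      intro x hx
      rw [hE] at hx
      exact hx n (by rw [hn]; exact le_max_left _ _)
    have h2 := hn0 n (by rw [hn]; exact le_trans (le_max_left _ _) (le_max_right _ _)) (by rw [hn]; exact le_trans (le_max_right _ _) (le_max_right _ _))
    have h3 : e' ≤ (e : ℝ) := by rw [he']; exact min_le_right _ _
    calc μ (E m) ≤ μ (IR.one Γ (FRQ_Psi χ θ n)) := measure_mono h1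
      _ = ENNReal.ofReal (μ.real (IR.one Γ (FRQ_Psi χ θ n))) := (ofReal_measureReal).symm
      _ ≤ ENNReal.ofReal (1 / 2 + (e : ℝ)) := ENNReal.ofReal_le_ofReal (by linarith [NNReal.coe_nonneg e])
      _ = 1 / 2 + (e : ENNReal) := by
          rw [ENNReal.ofReal_add (by norm_num) (NNReal.coe_nonneg e), ENNReal.ofReal_coe_nnreal]
          congr 1
          rw [ENNReal.ofReal_div_of_pos (by norm_num)]
          simp
  have hsub : {x : XG Γ | ∃ T0 : ℝ, ∀ T : ℝ, T0 ≤ T → volume.real {t : ℝ | t ∈ Icc 0 T ∧ fl Γ t x ∈ O} ≤ ε * δ0 / 20 * T} ⊆ ⋃ m, E m := by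
    intro x hx
    obtain ⟨T0, hT0⟩ := hx
    obtain ⟨g, rfl⟩ := (hXFL Γ).2.2.2.2.1 x
    have flm : ∀ (t : ℝ) (g : SL(2, ℝ)), fl Γ t (mkX Γ g) = mkX Γ (g * aM t) :=
      (hXFL Γ).2.2.2.2.2.2.2.2.1
    obtain ⟨m, hm⟩ := exists_nat_ge (max T0 (20 / ε + 2))
    rw [mem_iUnion]
    refine ⟨m, ?_⟩
    rw [hE]
    intro n hn
    have hmn : (m : ℝ) ≤ (n : ℝ) := by exact_mod_cast hn
    have hnT : T0 ≤ (n : ℝ) := le_trans (le_trans (le_max_left _ _) hm) hmn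
    have hnε : 20 / ε + 2 ≤ (n : ℝ) := le_trans (le_trans (le_max_right _ _) hm) hmn
    have hn1 : 1 ≤ n := by
      have h1 : (0 : ℝ) < 20 / ε := by positivity
      have h2 : (1 : ℝ) ≤ (n : ℝ) := by linarith
      exact_mod_cast h2
    refine ⟨g, rfl, ?_⟩
    refine hθ1 _ ?_
    refine FRQ_avg (fun i => χ (g * aM i)) n ε hn1 (fun i => (hχ _).1) ?_
    have hcard := hV (mkX Γ g) n ((Finset.range n).filter fun i => χ (g * aM i) ≠ 1) (by
      intro i hi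
      obtain ⟨hi1, hi2⟩ := Finset.mem_filter.mp hi
      refine ⟨Finset.mem_range.mp hi1, ?_⟩
      by_contra hcon
      push Not at hcon
      apply hi2
      apply hχ1
      intro s hs
      have h1 := hcon s hs
      rw [add_comm, (hXFL Γ).1.add, flm, flm] at h1
      exact h1)
    have hT := hT0 ((n : ℝ) + 5) (by linarith)
    have h5 : 5 / δ0 * volume.real {t : ℝ | t ∈ Icc (0 : ℝ) (n + 5) ∧ fl Γ t (mkX Γ g) ∈ O} ≤ 5 / δ0 * (ε * δ0 / 20 * ((n : ℝ) + 5)) :=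
      mul_le_mul_of_nonneg_left hT (by positivity)
    have h6 : 5 / δ0 * (ε * δ0 / 20 * ((n : ℝ) + 5)) = ε * ((n : ℝ) + 5) / 4 := by
      field_simp
      ring
    have h7 : 20 ≤ ε * ((n : ℝ) - 2) := by
      have h8 : 20 / ε ≤ (n : ℝ) - 2 := by linarith
      rw [div_le_iff₀ hε] at h8
      linarith
    refine le_trans hcard ?_
    rw [h6] at h5
    nlinarith
  calc μ {x : XG Γ | ∃ T0 : ℝ, ∀ T : ℝ, T0 ≤ T → volume.real {t : ℝ | t ∈ Icc 0 T ∧ fl Γ t x ∈ O} ≤ ε * δ0 / 20 * T}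
      ≤ μ (⋃ m, E m) := measure_mono hsub
    _ = ⨆ m, μ (E m) := hmono.measure_iUnion
    _ ≤ 1 / 2 := iSup_le hEm

end

end Pool.Agent.FS
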